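import Pool.Agent.H1.CA.TarP

/-!
# MP_ceca85_lc, row CC of the module board: the codes of two generic filters
-/

set_option linter.unusedVariables false

open Ordinal Order Set
open scoped ZFSet

namespace CAA

open SF

theorem mem_fib_H36 {X k q : V} : q ∈ fib X k ↔ ZFSet.pair k q ∈ X := by
  unfold fib
  rw [ZFSet.mem_sep, mem_rg]
  exact ⟨fun h => h.2, fun h => ⟨⟨k, h⟩, h⟩⟩

theorem fib_eq_H36 {D : Dat} {G G' : V} {k : Ordinal.{0}} (h : D.F G' k = D.F G k) (q : V) :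
    ZFSet.pair k.toZFSet q ∈ D.X G ↔ ZFSet.pair k.toZFSet q ∈ D.X G' := by
  have h1 : q ∈ fib (D.X G') k.toZFSet ↔ q ∈ fib (D.X G) k.toZFSet := by
    have h2 : fib (D.X G') k.toZFSet = fib (D.X G) k.toZFSet := h
    rw [h2]
  rw [mem_fib_H36, mem_fib_H36] at h1
  exact h1.symm

/-- CC -/
theorem pf_CC (hCA : T_CA) (hPG : T_PG) : T_CC := by
  intro D hD G G' hG hG' hH β hβ hF
  have ht : ∀ i ∈ D.κ.toZFSet, IsOrd (fst (app D.tf i)) := by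
    intro i hi
    obtain ⟨i', hi', rfl⟩ := Ordinal.mem_toZFSet_iff.1 hi
    obtain ⟨b, hb, y, hy, h⟩ := hD.tA i' hi'
    exact ⟨b, by rw [h, fst_pair]⟩
  have h := hCA D.κ.toZFSet D.tf (D.X G) (D.X G') (D.H G) β.toZFSet ⟨_, rfl⟩ ht ⟨_, rfl⟩ (by
    intro j hj hA hb q
    obtain ⟨j', hj', rfl⟩ := Ordinal.mem_toZFSet_iff.1 hj
    refine fib_eq_H36 (hF j' hj' ?_ hb) q
    unfold Dat.A As
    refine ZFSet.mem_sep.2 ⟨hj, hA, ?_⟩
    obtain ⟨b, hb'⟩ := ht _ hj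
    rw [hb'] at hb ⊢
    exact Ordinal.toZFSet_subset_toZFSet_iff.2 (Ordinal.toZFSet_mem_toZFSet_iff.1 hb).le)
  refine ⟨?_, fun hF' => ?_⟩
  · unfold Dat.A
    rw [hH]
    exact h.1.symm
  · unfold Dat.a
    rw [hH]
    refine (h.2 ?_).symm
    intro j hj q
    have hj1 : j ∈ D.κ.toZFSet := (ZFSet.mem_sep.1 hj).1
    obtain ⟨j', hj', rfl⟩ := Ordinal.mem_toZFSet_iff.1 hj1
    exact fib_eq_H36 (hF' j' hj' hj) q

end CAA
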