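import Pool.Agent.H1.CA.TarP

/-!
# MP_ceca85_lc, row PN of the module board: finite modifications
-/

set_option linter.unusedVariables false

open Ordinal Order Set
open scoped ZFSet

namespace CAA

open SF

/-- PN -/
theorem pf_PN (hPF : T_PF) (hPM : T_PM) : T_PN := by
  intro D hD G hG F hF hκ p hp
  have hQ : ∀ k < D.κ, D.Q k (app p k.toZFSet) := ((hPF D hD).2.2.2.2.1 p hp).2.2.1
  induction F, hF using Set.Finite.induction_on with
  | empty =>
    exact ⟨G, hG, fun _ _ _ => rfl, fun k hk => absurd hk (Set.notMem_empty k), fun _ => Iff.rfl,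
      rfl, fun W _ _ k hk => absurd hk (Set.notMem_empty k)⟩
  | @insert k F hk hF ih =>
    obtain ⟨G1, hG1, h1, h2, h3, h4, h5⟩ := ih (fun j hj => hκ j (Set.mem_insert_of_mem k hj))
    have hkκ : k < D.κ := hκ k (Set.mem_insert k F)
    obtain ⟨G2, hG2, g1, g2, g3, g4, g5⟩ := hPM D hD G1 hG1 k hkκ _ (hQ k hkκ)
    refine ⟨G2, hG2, ?_, ?_, fun x => (g3 x).trans (h3 x), g4.trans h4, ?_⟩
    · intro j hj hjF
      rw [Set.mem_insert_iff, not_or] at hjF
      rw [g1 j hj hjF.1, h1 j hj hjF.2]
    · intro j hj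
      rcases Set.mem_insert_iff.1 hj with rfl | hj'
      · exact g2
      · have hne : j ≠ k := by
          rintro rfl
          exact hk hj'
        rw [g1 j (hκ j hj) hne]
        exact h2 j hj'
    · intro W hW hM j hj
      rcases Set.mem_insert_iff.1 hj with rfl | hj'
      · rw [← h1 j hkκ hk]
        exact g5 W hW hM
      · have hne : j ≠ k := by
          rintro rfl
          exact hk hj'
        rw [g1 j (hκ j hj) hne]
        exact h5 W hW hM j hj'

end CAA
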