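import Pool.Agent.H1.CA.TarP

/-!
# MP_ceca85_lc, row PO of the module board: closure points in the stationary sets
-/

set_option linter.unusedVariables false

open Ordinal Order Set
open scoped ZFSet

namespace CAA

open SF

theorem rg_resS_H36 (a : V) (F : V → V) : rg (resS a F) = imS a F := by
  ext y
  rw [mem_rg, mem_imS]
  constructor
  · rintro ⟨x, hx⟩
    obtain ⟨h1, h2⟩ := pair_mem_resS.1 hx
    exact ⟨x, h1, h2.symm⟩
  · rintro ⟨x, hx, rfl⟩
    exact ⟨x, pair_mem_resS.2 ⟨hx, rfl⟩⟩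

/-- an ordinal above `δ` and above all `w(j)`, `j ≤ δ` -/
noncomputable def nx_H36 (w δ : V) : V := rkS ((imS (insert δ δ) fun j => app w j) ∪ insert δ δ)

theorem tm_nx_H36 : Tm ZFm (fun _ v => nx_H36 (v 1) (v 0)) := by
  refine Tm.rkS (Tm.union ?_ (Tm.ins (Tm.var 0) (Tm.var 0)))
  exact (Tm.image (f := fun _ v => insert (v 0) (v 0)) (g := fun _ v => app (v 2) (v 0))
    (Tm.ins (Tm.var 0) (Tm.var 0)) (Tm.app (Tm.var 2) (Tm.var 0))).congr fun M k v hv => rfl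

/-- PO -/
theorem pf_PO (hDF : T_DF) (hGH : T_GH) (hSA : T_SA) : T_PO := by
  intro D hD i hi w hw hf
  have kc : ZFCm D.M := hD.grd.zfc
  have k : ZFm D.M := kc.toZFm
  obtain ⟨hgd, hC, hlim, hbd, -⟩ := (hGH D hD).1 i hi
  have hDF' := hDF D.M k _ hC hgd
  have hsub := hDF'.2.2.1
  have hun := hDF'.2.2.2.2.1
  have him := hDF'.2.2.2.2.2.2.1
  have hMμ : D.M (D.μ i).toZFSet := (hD.grd.ord _).2
    ((hD.sz.μκ i hi).trans (hD.grd.κχ.trans hD.grd.χθ))
  have hMδ : ∀ δ < D.μ i, D.M δ.toZFSet := fun δ hδ =>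
    k.trans _ hMμ _ (Ordinal.toZFSet_mem_toZFSet_iff.2 hδ)
  have hins : ∀ δ : Ordinal.{0}, insert δ.toZFSet δ.toZFSet = (succ δ).toZFSet := by
    intro δ
    exact (Ordinal.toZFSet_add_one δ).symm
  -- the image of a small set
  have himg : ∀ δ < D.μ i, D.M (imS δ.toZFSet fun j => app w j) ∧
      Sm D.M (LA ∅ (D.γ i)) (imS δ.toZFSet fun j => app w j) := by
    intro δ hδ
    have h0 : D.M (resS δ.toZFSet fun j => app w j) :=
      (Tm.resS (f := fun _ v => v 0) (g := fun _ v => app (v 2) (v 0)) (Tm.var 0)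
        (Tm.app (Tm.var 2) (Tm.var 0))).1 D.M k (cons δ.toZFSet fun _ => w)
        (In.cons (fun _ => hw) (hMδ δ hδ))
    rw [← rg_resS_H36]
    refine ⟨(Tm.rg (Tm.var 0)).1 D.M k (fun _ => _) fun _ => h0, ?_⟩
    exact him _ _ (hD.sz.sm i hi δ hδ) h0 (svl_resS _ _) (dm_resS _ _)
  -- the next ordinal
  have hnx : ∀ δ < D.μ i, ∃ δ' < D.μ i, nx_H36 w δ.toZFSet = δ'.toZFSet ∧ δ < δ' ∧
      ∀ j < δ, app w j.toZFSet ∈ δ'.toZFSet := by
    intro δ hδ
    have hsδ : succ δ < D.μ i := hlim.succ_lt hδ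
    obtain ⟨h1, h2⟩ := himg _ hsδ
    have h3 : (imS (succ δ).toZFSet fun j => app w j) ∪ (succ δ).toZFSet ⊆ (D.μ i).toZFSet := by
      intro x hx
      rcases ZFSet.mem_union.1 hx with hx | hx
      · obtain ⟨j, hj, rfl⟩ := mem_imS.1 hx
        exact app_mem hf (Ordinal.toZFSet_subset_toZFSet_iff.2 hsδ.le hj)
      · exact Ordinal.toZFSet_subset_toZFSet_iff.2 hsδ.le hx
    have h4 : D.M ((imS (succ δ).toZFSet fun j => app w j) ∪ (succ δ).toZFSet) :=
      (Tm.union (Tm.var 0) (Tm.var 1)).1 D.M k (cons _ fun _ => (succ δ).toZFSet)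
        (In.cons (fun _ => hMδ _ hsδ) h1)
    obtain ⟨η, hη, h5⟩ := hbd _ h4 (hun _ _ h2 (hD.sz.sm i hi _ hsδ)) h3
    have h6 : nx_H36 w δ.toZFSet =
        ((imS (succ δ).toZFSet fun j => app w j) ∪ (succ δ).toZFSet).rank.toZFSet := by
      unfold nx_H36 rkS
      rw [hins]
    refine ⟨_, ?_, h6, ?_, ?_⟩
    · refine lt_of_le_of_lt ?_ hη
      have h7 := ZFSet.rank_mono h5
      rwa [Ordinal.rank_toZFSet] at h7
    · have h7 : δ.toZFSet ∈ (imS (succ δ).toZFSet fun j => app w j) ∪ (succ δ).toZFSet :=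
        ZFSet.mem_union.2 (Or.inr (Ordinal.toZFSet_mem_toZFSet_iff.2 (lt_succ δ)))
      have h8 := ZFSet.rank_lt_of_mem h7
      rwa [Ordinal.rank_toZFSet] at h8
    · intro j hj
      have h7 : app w j.toZFSet ∈ (imS (succ δ).toZFSet fun j => app w j) ∪ (succ δ).toZFSet :=
        ZFSet.mem_union.2 (Or.inl (mem_imS.2 ⟨_, Ordinal.toZFSet_mem_toZFSet_iff.2
          (hj.trans (lt_succ δ)), rfl⟩))
      obtain ⟨a, ha, e⟩ := Ordinal.mem_toZFSet_iff.1 (h3 h7)
      have h8 := ZFSet.rank_lt_of_mem h7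
      rw [← e, Ordinal.rank_toZFSet] at h8
      rw [← e]
      exact Ordinal.toZFSet_mem_toZFSet_iff.2 h8
  -- the club
  have hCl : IsClub (D.μ i) ((D.μ i).toZFSet.sep fun δ => δ ≠ ∅ ∧ ∀ j ∈ δ, app w j ∈ δ) := by
    refine ⟨fun x hx => (ZFSet.mem_sep.1 hx).1, ?_, ?_⟩
    · intro ξ hξ
      -- the iteration
      have hit : ∀ n : ℕ, ∃ δ < D.μ i,
          it (fun _ v => nx_H36 (v 1) (v 0)) (fun _ v => v 1) D.M
            (cons w fun _ => (succ ξ).toZFSet) n = δ.toZFSet := by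
        intro n
        induction n with
        | zero => exact ⟨succ ξ, hlim.succ_lt hξ, rfl⟩
        | succ n ih =>
          obtain ⟨δ, hδ, h⟩ := ih
          obtain ⟨δ', hδ', h', -⟩ := hnx δ hδ
          refine ⟨δ', hδ', ?_⟩
          rw [← h', ← h]
          rfl
      choose d hd hdn using hit
      have hd0 : d 0 = succ ξ := by
        have h : (d 0).toZFSet = (succ ξ).toZFSet := (hdn 0).symm
        exact Ordinal.toZFSet_injective h
      have hds : ∀ n, (d (n + 1)).toZFSet = nx_H36 w (d n).toZFSet := by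
        intro n
        rw [← hdn (n + 1), ← hdn n]
        rfl
      have hTm : Tm ZFm (fun M v => resS om fun x =>
          it (fun _ v => nx_H36 (v 1) (v 0)) (fun _ v => v 1) M v (nn x)) := by
        refine Tm.resS (f := fun _ _ => om) (g := fun M v =>
          it (fun _ v => nx_H36 (v 1) (v 0)) (fun _ v => v 1) M (fun i => v (i + 1)) (nn (v 0)))
          Tm.om (tm_it tm_nx_H36 (Tm.var 1))
      have hTM : D.M (resS om fun x => it (fun _ v => nx_H36 (v 1) (v 0)) (fun _ v => v 1) D.M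
          (cons w fun _ => (succ ξ).toZFSet) (nn x)) :=
        hTm.1 D.M k _ (In.cons (fun _ => hMδ _ (hlim.succ_lt hξ)) hw)
      have hTr : D.M (rg (resS om fun x => it (fun _ v => nx_H36 (v 1) (v 0)) (fun _ v => v 1) D.M
          (cons w fun _ => (succ ξ).toZFSet) (nn x))) :=
        (Tm.rg (Tm.var 0)).1 D.M k (fun _ => _) fun _ => hTM
      have hSm := him _ _ (hDF'.1 _ hgd.om) hTM (svl_resS _ _) (dm_resS _ _)
      rw [rg_resS_H36] at hTr hSm
      obtain ⟨η, hη, hTη⟩ := hbd _ hTr hSm (by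
        intro x hx
        obtain ⟨y, hy, rfl⟩ := mem_imS.1 hx
        rw [hdn]
        exact Ordinal.toZFSet_mem_toZFSet_iff.2 (hd _))
      have hdη : ∀ n, d n < η := by
        intro n
        refine Ordinal.toZFSet_mem_toZFSet_iff.1 (hTη (mem_imS.2 ⟨nS n, nS_mem_om n, ?_⟩))
        rw [nn_nS, hdn]
      have hstep : ∀ n, d n < d (n + 1) ∧ ∀ j < d n, app w j.toZFSet ∈ (d (n + 1)).toZFSet := by
        intro n
        obtain ⟨δ', hδ', h', h1, h2⟩ := hnx (d n) (hd n)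
        have h3 : d (n + 1) = δ' := Ordinal.toZFSet_injective ((hds n).trans h')
        rw [h3]
        exact ⟨h1, h2⟩
      have hle : ⨆ n, d n ≤ η := Ordinal.iSup_le fun n => (hdη n).le
      have hsup : ⨆ n, d n < D.μ i := lt_of_le_of_lt hle hη
      refine ⟨⨆ n, d n, ?_, ZFSet.mem_sep.2 ⟨Ordinal.toZFSet_mem_toZFSet_iff.2 hsup, ?_, ?_⟩⟩
      · refine lt_of_lt_of_le (lt_succ ξ) ?_
        rw [← hd0]
        exact Ordinal.le_iSup d 0
      · intro h
        have h1 : ξ.toZFSet ∈ (⨆ n, d n).toZFSet := by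
          refine Ordinal.toZFSet_mem_toZFSet_iff.2 (lt_of_lt_of_le (lt_succ ξ) ?_)
          rw [← hd0]
          exact Ordinal.le_iSup d 0
        rw [h] at h1
        exact ZFSet.notMem_empty _ h1
      · intro j hj
        obtain ⟨j', hj', rfl⟩ := Ordinal.mem_toZFSet_iff.1 hj
        obtain ⟨n, hn⟩ := Ordinal.lt_iSup_iff.1 hj'
        exact Ordinal.toZFSet_subset_toZFSet_iff.2 (Ordinal.le_iSup d (n + 1)) ((hstep n).2 j' hn)
    · intro δ hδ h0 h
      refine ZFSet.mem_sep.2 ⟨Ordinal.toZFSet_mem_toZFSet_iff.2 hδ, ?_, ?_⟩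
      · intro h1
        apply h0
        have h2 : δ.toZFSet = (0 : Ordinal.{0}).toZFSet := by rw [h1, Ordinal.toZFSet_zero]
        exact Ordinal.toZFSet_injective h2
      · intro j hj
        obtain ⟨j', hj', rfl⟩ := Ordinal.mem_toZFSet_iff.1 hj
        obtain ⟨η, h1, h2, h3⟩ := h j' hj'
        exact Ordinal.toZFSet_subset_toZFSet_iff.2 h2.le
          ((ZFSet.mem_sep.1 h3).2.2 _ (Ordinal.toZFSet_mem_toZFSet_iff.2 h1))
  have hCM : D.M ((D.μ i).toZFSet.sep fun δ => δ ≠ ∅ ∧ ∀ j ∈ δ, app w j ∈ δ) := by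
    have hT : Tm ZFm (fun _ v => (v 0).sep fun δ => δ ≠ ∅ ∧ ∀ j ∈ δ, app (v 1) j ∈ δ) := by
      refine (Tm.sep (R := fun _ v => v 0 ≠ ∅ ∧ ∀ j ∈ v 0, app (v 2) j ∈ v 0) ?_
        (Tm.var 0)).congr fun M k v hv => rfl
      refine (Dfb.eq (Tm.var 0) Tm.empty).not.and ?_
      exact (Dfb.ball (R := fun _ v => app (v 3) (v 0) ∈ v 1) ktr_zfm (Tm.var 0)
        (Dfb.mem (Tm.app (Tm.var 3) (Tm.var 0)) (Tm.var 1))).congr fun M k v hv => Iff.rfl
    exact hT.1 D.M k (cons (D.μ i).toZFSet fun _ => w) (In.cons (fun _ => hw) hMμ)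
  obtain ⟨δ, hδ, hδC, hE⟩ := hSA D hD i hi _ hCM hCl
  refine ⟨δ, hδ, (hD.eA i hi _).2 ⟨δ, hδ, rfl, hE⟩, fun j hj => ?_⟩
  exact (ZFSet.mem_sep.1 hδC).2.2 _ (Ordinal.toZFSet_mem_toZFSet_iff.2 hj)

end CAA
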